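import Mathlib
import Pool.Agent.Helper95_PA.Defs

/-!
# Module D2: elementary substructures of the definable ultrapower
-/

set_option autoImplicit false

namespace Pool.Agent.Helper76_PA

open FirstOrder FirstOrder.Language Pool.Agent.Helper95_PA

/-- addition of a ring structure -/
def ad {M : Type} [Language.ring.Structure M] (x y : M) : M :=
  Structure.funMap FirstOrder.Ring.addFunc ![x, y]

/-- multiplication -/
def mu {M : Type} [Language.ring.Structure M] (x y : M) : M :=
  Structure.funMap FirstOrder.Ring.mulFunc ![x, y]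

/-- one -/
def on (M : Type) [Language.ring.Structure M] : M :=
  Structure.funMap FirstOrder.Ring.oneFunc ![]

/-- The modulus. -/
def md {M : Type} [Language.ring.Structure M] (h b : M) : M := ad (mu (ad h (on M)) b) (on M)

/-- modulus as a term -/
noncomputable def mt : Language.ring.Term (Fin 3 ⊕ Fin 3) :=
  (Term.var (Sum.inl 1) + 1) * Term.var (Sum.inl 2) + 1

/-- the matrix -/
noncomputable def th : Language.ring.BoundedFormula (Fin 3) 3 :=
  (Term.bdEqual (Term.var (Sum.inl 0)) (mt * Term.var (Sum.inr 1) + Term.var (Sum.inr 0))) ⊓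
  (Term.bdEqual mt (Term.var (Sum.inr 0) + Term.var (Sum.inr 2) + 1))

/-- the formula -/
noncomputable def ph : Language.ring.Formula (Fin 3) := th.ex.ex.ex

theorem real_ph (M : Type) [Language.ring.Structure M] (v : Fin 3 → M) : (ph).Realize v ↔
    ∃ w u c : M, v 0 = ad (mu (md (v 1) (v 2)) u) w ∧ md (v 1) (v 2) = ad (ad w c) (on M) := by
  unfold ph Formula.Realize
  simp only [BoundedFormula.realize_ex]
  apply exists_congr; intro w
  apply exists_congr; intro u
  apply exists_congr; intro c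
  simp only [th, mt, BoundedFormula.realize_inf, BoundedFormula.realize_bdEqual,
    FirstOrder.Ring.add_def, FirstOrder.Ring.mul_def, FirstOrder.Ring.one_def,
    Term.realize_functions_apply₂, Term.realize_constants, Term.realize_var]
  have e1 : ((FirstOrder.Ring.oneFunc : Language.ring.Constants) : M) = on M := by
    show Structure.funMap _ _ = Structure.funMap _ _
    congr 1
  have s0 : (Sum.elim v (Fin.snoc (Fin.snoc (Fin.snoc default w) u) c : Fin 3 → M))
      (Sum.inr 0) = w := rfl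
  have s1 : (Sum.elim v (Fin.snoc (Fin.snoc (Fin.snoc default w) u) c : Fin 3 → M))
      (Sum.inr 1) = u := rfl
  have s2 : (Sum.elim v (Fin.snoc (Fin.snoc (Fin.snoc default w) u) c : Fin 3 → M))
      (Sum.inr 2) = c := rfl
  rw [e1, s0, s1, s2]
  rfl

variable {L : Type} [Lattice L] [BoundedOrder L]

theorem e_mono (F : Fam L) {r s : L} (h : r ≤ s) {x y : F.X} (hE : F.E s x y) : F.E r x y := by
  have := (F.sup r s x y).1 (by rwa [sup_eq_right.2 h])
  exact this.1

theorem e_bot (F : Fam L) {s : L} {x y : F.X} (hE : F.E s x y) : F.E ⊥ x y := e_mono F bot_le hE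

/-- functions constant on the classes of `E r` -/
def Ar {F : Fam L} (G : Gen F) (r : L) : Set (F.X → ℕ) :=
  {f | f ∈ G.D ∧ ∃ k, ∀ x ∈ G.S k, ∀ y ∈ G.S k, F.E r x y → f x = f y}

theorem ar_sub {F : Fam L} (G : Gen F) (r : L) : Ar G r ⊆ G.D := fun _ h => h.1

theorem ar_mono {F : Fam L} (G : Gen F) {r s : L} (h : r ≤ s) : Ar G r ⊆ Ar G s := by
  rintro f ⟨hf, k, hk⟩
  exact ⟨hf, k, fun x hx y hy hE => hk x hx y hy (e_mono F h hE)⟩

theorem ar_closed {F : Fam L} (G : Gen F) (r : L) : Closed (Ar G r) := by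
  intro p hp f hf
  refine ⟨G.closed p hp f (fun i => (hf i).1), ?_⟩
  choose k hk using fun i => (hf i).2
  refine ⟨Finset.univ.sup k, fun x hx y hy hE => ?_⟩
  have : (fun i => f i x) = (fun i => f i y) := by
    funext i
    have hle : k i ≤ Finset.univ.sup k := Finset.le_sup (Finset.mem_univ i)
    exact hk i x (G.anti hle hx) y (G.anti hle hy) hE
  show p.2 _ = p.2 _
  rw [this]

theorem er_mem {F : Fam L} (G : Gen F) (r : L) : G.e r ∈ Ar G r := by
  refine ⟨G.e_mem r, 0, fun x _ y _ hE => ?_⟩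
  exact (G.e_iff r x y (e_bot F hE)).2 hE

section clos

variable {F : Fam L} {G : Gen F} {N : Type} [Language.ring.Structure N] {q : (F.X → ℕ) → N}

theorem q_ad (P : Pres G N q) {f g : F.X → ℕ} (hf : f ∈ G.D) (hg : g ∈ G.D) :
    ad (q f) (q g) = q (fun t => f t + g t) := by
  have := P.map 2 FirstOrder.Ring.addFunc ![f, g] (by intro i; fin_cases i <;> simpa)
  unfold ad
  have e : (fun i => q (![f, g] i)) = ![q f, q g] := by
    funext i; fin_cases i <;> rfl
  rw [e] at this
  rw [this]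
  rfl

theorem q_mu (P : Pres G N q) {f g : F.X → ℕ} (hf : f ∈ G.D) (hg : g ∈ G.D) :
    mu (q f) (q g) = q (fun t => f t * g t) := by
  have := P.map 2 FirstOrder.Ring.mulFunc ![f, g] (by intro i; fin_cases i <;> simpa)
  unfold mu
  have e : (fun i => q (![f, g] i)) = ![q f, q g] := by
    funext i; fin_cases i <;> rfl
  rw [e] at this
  rw [this]
  rfl

theorem q_on (P : Pres G N q) : on N = q (fun _ => 1) := by
  have := P.map 0 FirstOrder.Ring.oneFunc ![] (by intro i; exact i.elim0)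
  unfold on
  have e : (fun i => q ((![] : Fin 0 → F.X → ℕ) i)) = ![] := by
    funext i; exact i.elim0
  rw [e] at this
  rw [this]
  rfl

theorem d_ad {A : Set (F.X → ℕ)} (hA : Closed A) {f g : F.X → ℕ} (hf : f ∈ A) (hg : g ∈ A) :
    (fun t => f t + g t) ∈ A := by
  have := hA ⟨2, fun v => v 0 + v 1⟩ (by right; simp) ![f, g] (by intro i; fin_cases i <;> simpa)
  simpa using this

theorem d_mu {A : Set (F.X → ℕ)} (hA : Closed A) {f g : F.X → ℕ} (hf : f ∈ A) (hg : g ∈ A) :
    (fun t => f t * g t) ∈ A := by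
  have := hA ⟨2, fun v => v 0 * v 1⟩ (by right; simp) ![f, g] (by intro i; fin_cases i <;> simpa)
  simpa using this

theorem d_on {A : Set (F.X → ℕ)} (hA : Closed A) : (fun _ => 1) ∈ A := by
  have := hA ⟨0, fun _ => 1⟩ (by right; simp) ![] (by intro i; exact i.elim0)
  simpa using this

theorem d_sk {A : Set (F.X → ℕ)} (hA : Closed A) (ψ : Language.ring.Formula ℕ) {f g : F.X → ℕ}
    (hf : f ∈ A) (hg : g ∈ A) : (fun t => skolem ψ 2 ![f t, g t]) ∈ A := by
  have := hA ⟨2, skolem ψ 2⟩ (by left; exact ⟨(ψ, 2), rfl⟩) ![f, g]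
    (by intro i; fin_cases i <;> simpa)
  have e : (fun t => skolem ψ 2 ![f t, g t]) = fun t => skolem ψ 2 (fun i => ![f, g] i t) := by
    funext t
    congr 1
    funext i
    fin_cases i <;> rfl
  rw [e]
  exact this

/-- `v0 + c + 1 = v1 * (y + 1)` for some `c` -/
noncomputable def psu : Language.ring.Formula ℕ :=
  (Term.bdEqual (Term.var (Sum.inl 0) + Term.var (Sum.inr 0) + 1)
    (Term.var (Sum.inl 1) * (Term.var (Sum.inl 2) + 1)) :
      Language.ring.BoundedFormula ℕ 1).ex

/-- `v0 + y = v1` -/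
noncomputable def psc : Language.ring.Formula ℕ :=
  (Term.bdEqual (Term.var (Sum.inl 0) + Term.var (Sum.inl 2))
    (Term.var (Sum.inl 1)) : Language.ring.BoundedFormula ℕ 0)

theorem real_psu (v : ℕ → ℕ) : psu.Realize v ↔ ∃ c, v 0 + c + 1 = v 1 * (v 2 + 1) := by
  unfold psu Formula.Realize
  simp only [BoundedFormula.realize_ex]
  apply exists_congr; intro w
  simp only [BoundedFormula.realize_bdEqual,
    FirstOrder.Ring.add_def, FirstOrder.Ring.mul_def, FirstOrder.Ring.one_def,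
    Term.realize_functions_apply₂, Term.realize_constants, Term.realize_var]
  rfl

theorem real_psc (v : ℕ → ℕ) : psc.Realize v ↔ v 0 + v 2 = v 1 := by
  unfold psc Formula.Realize
  simp only [BoundedFormula.realize_bdEqual,
    FirstOrder.Ring.add_def, FirstOrder.Ring.mul_def, FirstOrder.Ring.one_def,
    Term.realize_functions_apply₂, Term.realize_constants, Term.realize_var]
  rfl

theorem sk_psu (a m : ℕ) (hm : 0 < m) : skolem psu 2 ![a, m] = a / m := by
  unfold skolem
  have : {y : ℕ | psu.Realize (fun i => if h : i < 2 then (![a, m] : Fin 2 → ℕ) ⟨i, h⟩ else y)} =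
      {y : ℕ | a / m ≤ y} := by
    ext y
    simp only [Set.mem_ofPred_eq]
    rw [real_psu]
    simp only [Nat.ofNat_pos, ↓reduceDIte, Nat.one_lt_ofNat, lt_self_iff_false]
    show (∃ c, a + c + 1 = m * (y + 1)) ↔ _
    constructor
    · rintro ⟨c, hc⟩
      have : a < m * (y + 1) := by omega
      have := Nat.div_lt_of_lt_mul this
      omega
    · intro h
      have h1 : a / m < y + 1 := by omega
      have h2 : a < (y + 1) * m := (Nat.div_lt_iff_lt_mul hm).1 h1
      refine ⟨m * (y + 1) - a - 1, ?_⟩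
      rw [Nat.mul_comm] at h2
      omega
  rw [this]
  apply le_antisymm
  · exact Nat.sInf_le (by simp)
  · have hne : {y : ℕ | a / m ≤ y}.Nonempty := ⟨a / m, by simp⟩
    exact Nat.sInf_mem hne

theorem sk_psc (f n : ℕ) : skolem psc 2 ![f, n] = n - f := by
  unfold skolem
  have : {y : ℕ | psc.Realize (fun i => if h : i < 2 then (![f, n] : Fin 2 → ℕ) ⟨i, h⟩ else y)} =
      {y : ℕ | f + y = n} := by
    ext y
    simp only [Set.mem_ofPred_eq]
    rw [real_psc]
    simp only [Nat.ofNat_pos, ↓reduceDIte, Nat.one_lt_ofNat, lt_self_iff_false]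
    rfl
  rw [this]
  by_cases h : f ≤ n
  · have : {y : ℕ | f + y = n} = {n - f} := by
      ext y
      simp only [Set.mem_ofPred_eq, Set.mem_singleton_iff]
      omega
    rw [this]
    simp
  · have : {y : ℕ | f + y = n} = ∅ := by
      ext y
      simp only [Set.mem_ofPred_eq, Set.mem_empty_iff_false, iff_false]
      omega
    rw [this]
    simp
    omega

theorem d_div {A : Set (F.X → ℕ)} (hA : Closed A) {f g : F.X → ℕ}
    (hf : f ∈ A) (hg : g ∈ A) (hp : ∀ t, 0 < g t) : (fun t => f t / g t) ∈ A := by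
  have := d_sk hA psu hf hg
  simpa only [sk_psu _ _ (hp _)] using this

theorem d_sub {A : Set (F.X → ℕ)} (hA : Closed A) {f g : F.X → ℕ}
    (hf : f ∈ A) (hg : g ∈ A) : (fun t => g t - f t) ∈ A := by
  have := d_sk hA psc hf hg
  simpa only [sk_psc] using this

theorem coe_ad (K : Language.ring.ElementarySubstructure N) (x y : K) :
    ((ad x y : K) : N) = ad (x : N) (y : N) := by
  unfold ad
  have := K.subtype.toEmbedding.map_fun FirstOrder.Ring.addFunc ![x, y]
  have e : (fun i => K.subtype (![x, y] i)) = ![(x : N), (y : N)] := by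
    funext i; fin_cases i <;> rfl
  rw [← e]
  exact this

theorem coe_mu (K : Language.ring.ElementarySubstructure N) (x y : K) :
    ((mu x y : K) : N) = mu (x : N) (y : N) := by
  unfold mu
  have := K.subtype.toEmbedding.map_fun FirstOrder.Ring.mulFunc ![x, y]
  have e : (fun i => K.subtype (![x, y] i)) = ![(x : N), (y : N)] := by
    funext i; fin_cases i <;> rfl
  rw [← e]
  exact this

theorem coe_on (K : Language.ring.ElementarySubstructure N) :
    ((on K : K) : N) = on N := by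
  unfold on
  have := K.subtype.toEmbedding.map_fun FirstOrder.Ring.oneFunc ![]
  have e : (fun i => K.subtype ((![] : Fin 0 → K) i)) = ![] := by
    funext i; exact i.elim0
  rw [← e]
  exact this

theorem coe_md (K : Language.ring.ElementarySubstructure N) (x y : K) :
    ((md x y : K) : N) = md (x : N) (y : N) := by
  unfold md
  rw [coe_ad, coe_mu, coe_ad, coe_on]

theorem q_md (P : Pres G N q) {h b : F.X → ℕ} (hh : h ∈ G.D) (hb : b ∈ G.D) :
    md (q h) (q b) = q (fun t => (h t + 1) * b t + 1) := by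
  unfold md
  have d1 := d_on G.closed
  have d2 := d_ad G.closed hh d1
  have d3 := d_mu G.closed d2 hb
  rw [q_on P, q_ad P hh d1, q_mu P d2 hb, q_ad P d3 d1]

theorem mod_mem (P : Pres G N q) (K : Language.ring.ElementarySubstructure N)
    {a h b f : F.X → ℕ} (ha : a ∈ G.D) (hh : h ∈ G.D) (hb : b ∈ G.D) (hf : f ∈ G.D)
    (qa : q a ∈ K) (qh : q h ∈ K) (qb : q b ∈ K) (k : ℕ)
    (hfx : ∀ x ∈ G.S k, f x = a x % ((h x + 1) * b x + 1)) : q f ∈ K := by
  have d1 := d_on G.closed
  have d2 := d_ad G.closed hh d1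
  have d3 := d_mu G.closed d2 hb
  have d4 := d_ad G.closed d3 d1
  have du := d_div G.closed ha d4 (fun t => Nat.succ_pos _)
  have dc := d_sub G.closed hf d3
  have hN : ph.Realize (Subtype.val ∘ (![⟨q a, qa⟩, ⟨q h, qh⟩, ⟨q b, qb⟩] : Fin 3 → K)) := by
    rw [real_ph]
    refine ⟨q f, q (fun t => a t / ((h t + 1) * b t + 1)), q (fun t => (h t + 1) * b t - f t),
      ?_, ?_⟩
    · show q a = ad (mu (md (q h) (q b)) _) _
      rw [q_md P hh hb, q_mu P d4 du, q_ad P (d_mu G.closed d4 du) hf,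
        P.eq_iff _ ha _ (d_ad G.closed (d_mu G.closed d4 du) hf)]
      refine ⟨k, fun x hx => ?_⟩
      show a x = ((h x + 1) * b x + 1) * (a x / ((h x + 1) * b x + 1)) + f x
      rw [hfx x hx]
      exact (Nat.div_add_mod _ _).symm
    · show md (q h) (q b) = _
      rw [q_md P hh hb, q_ad P hf dc, q_on P, q_ad P (d_ad G.closed hf dc) d1,
        P.eq_iff _ d4 _ (d_ad G.closed (d_ad G.closed hf dc) d1)]
      refine ⟨k, fun x hx => ?_⟩
      show (h x + 1) * b x + 1 = f x + ((h x + 1) * b x - f x) + 1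
      have : f x < (h x + 1) * b x + 1 := by
        rw [hfx x hx]; exact Nat.mod_lt _ (Nat.succ_pos _)
      omega
  have hK := (K.isElementary ph ![⟨q a, qa⟩, ⟨q h, qh⟩, ⟨q b, qb⟩]).1 hN
  obtain ⟨w, u, c, e1, e2⟩ := (real_ph K _).1 hK
  have e1' : q a = ad (mu (md (q h) (q b)) (u : N)) (w : N) := by
    have := congrArg (fun z : K => (z : N)) e1
    simp only [coe_ad, coe_mu, coe_md] at this
    exact this
  have e2' : md (q h) (q b) = ad (ad (w : N) (c : N)) (on N) := by
    have := congrArg (fun z : K => (z : N)) e2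
    simp only [coe_ad, coe_md, coe_on] at this
    exact this
  obtain ⟨w', dw, hw⟩ := P.surj (w : N)
  obtain ⟨u', du', hu⟩ := P.surj (u : N)
  obtain ⟨c', dc', hc⟩ := P.surj (c : N)
  rw [← hw, ← hu, q_md P hh hb, q_mu P d4 du', q_ad P (d_mu G.closed d4 du') dw,
    P.eq_iff _ ha _ (d_ad G.closed (d_mu G.closed d4 du') dw)] at e1'
  rw [← hw, ← hc, q_md P hh hb, q_ad P dw dc', q_on P, q_ad P (d_ad G.closed dw dc') d1,
    P.eq_iff _ d4 _ (d_ad G.closed (d_ad G.closed dw dc') d1)] at e2'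
  obtain ⟨k1, hk1⟩ := e1'
  obtain ⟨k2, hk2⟩ := e2'
  have : q f = q w' := by
    rw [P.eq_iff _ hf _ dw]
    refine ⟨max k (max k1 k2), fun x hx => ?_⟩
    have x0 := hfx x (G.anti (le_max_left _ _) hx)
    have x1 := hk1 x (G.anti (le_trans (le_max_left _ _) (le_max_right _ _)) hx)
    have x2 := hk2 x (G.anti (le_trans (le_max_right _ _) (le_max_right _ _)) hx)
    rw [x0, x1, Nat.mul_add_mod, Nat.mod_eq_of_lt]
    omega
  rw [this, hw]
  exact w.2

/-- pairing -/
theorem pair_inj {a b c d : ℕ} (h : (a + b) * (a + b) + a = (c + d) * (c + d) + c) :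
    a = c ∧ b = d := by
  have h1 : a + b = c + d := by
    rcases lt_trichotomy (a + b) (c + d) with h1 | h1 | h1
    · nlinarith
    · exact h1
    · nlinarith
  rw [h1] at h
  omega

end clos

theorem mem_K_of_mod {F : Fam L} {G : Gen F} {N : Type} [Language.ring.Structure N]
    {q : (F.X → ℕ) → N} (P : Pres G N q) (K0 K : Language.ring.ElementarySubstructure N)
    (hK0 : ∀ z, z ∈ K0 ↔ ∃ f ∈ Ar G ⊥, q f = z) (hle : K0 ≤ K) {f h : F.X → ℕ}
    (hf : f ∈ G.D) (hh : h ∈ G.D) (qh : q h ∈ K) (k : ℕ)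
    (hd : ∀ x ∈ G.S k, ∀ y ∈ G.S k, F.E ⊥ x y → h x = h y → f x = f y) : q f ∈ K := by
  obtain ⟨a, ha, b, hb, ea, eb, hfx⟩ := G.code f hf h hh k hd
  have qa : q a ∈ K := hle ((hK0 _).2 ⟨a, ⟨ha, 0, fun x _ y _ hE => ea x y hE⟩, rfl⟩)
  have qb : q b ∈ K := hle ((hK0 _).2 ⟨b, ⟨hb, 0, fun x _ y _ hE => eb x y hE⟩, rfl⟩)
  exact mod_mem P K ha hh hb hf qa qh qb k hfx

theorem ad_mem {N : Type} [Language.ring.Structure N]
    (K : Language.ring.ElementarySubstructure N) {x y : N} (hx : x ∈ K) (hy : y ∈ K) :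
    ad x y ∈ K := by
  have := (ad (⟨x, hx⟩ : K) ⟨y, hy⟩).2
  rwa [coe_ad] at this

theorem mu_mem {N : Type} [Language.ring.Structure N]
    (K : Language.ring.ElementarySubstructure N) {x y : N} (hx : x ∈ K) (hy : y ∈ K) :
    mu x y ∈ K := by
  have := (mu (⟨x, hx⟩ : K) ⟨y, hy⟩).2
  rwa [coe_mu] at this

theorem iso : IsoStatement := by
  intro L _ _ _ F G N _ q P
  choose KK hKK using fun r => P.el (Ar G r) (ar_sub G r) (ar_closed G r)
  have kmono : ∀ r s, r ≤ s → KK r ≤ KK s := by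
    intro r s h z hz
    obtain ⟨f, hf, e⟩ := (hKK r z).1 hz
    exact (hKK s z).2 ⟨f, ar_mono G h hf, e⟩
  have kref : ∀ r s, KK r ≤ KK s → r ≤ s := by
    intro r s h
    have h1 : q (G.e r) ∈ KK r := (hKK r _).2 ⟨_, er_mem G r, rfl⟩
    obtain ⟨g, ⟨hg, k, hk⟩, e⟩ := (hKK s _).1 (h h1)
    obtain ⟨k', hk'⟩ := (P.eq_iff _ hg _ (G.e_mem r)).1 e
    refine F.large_faithful (G.S (max k k')) (G.large _) r s ?_
    intro x hx y hy hE
    have x1 := G.anti (le_max_left k k') hx
    have x2 := G.anti (le_max_right k k') hx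
    have y1 := G.anti (le_max_left k k') hy
    have y2 := G.anti (le_max_right k k') hy
    rw [← G.e_iff r x y (e_bot F hE), ← hk' x x2, ← hk' y y2]
    exact hk x x1 y y1 hE
  have ksurj : ∀ K : Language.ring.ElementarySubstructure N, KK ⊥ ≤ K → ∃ r, KK r = K := by
    intro K hK
    have hsup : ∀ r s, q (G.e r) ∈ K → q (G.e s) ∈ K → q (G.e (r ⊔ s)) ∈ K := by
      intro r s hr hs
      have dr := G.e_mem r
      have ds := G.e_mem s
      have dp := d_ad G.closed (d_mu G.closed (d_ad G.closed dr ds) (d_ad G.closed dr ds)) dr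
      refine mem_K_of_mod P (KK ⊥) K (hKK ⊥) hK (G.e_mem _) dp ?_ 0 ?_
      · rw [← q_ad P (d_mu G.closed (d_ad G.closed dr ds) (d_ad G.closed dr ds)) dr,
          ← q_mu P (d_ad G.closed dr ds) (d_ad G.closed dr ds), ← q_ad P dr ds]
        exact ad_mem K (mu_mem K (ad_mem K hr hs) (ad_mem K hr hs)) hr
      · intro x _ y _ hE h
        obtain ⟨h1, h2⟩ := pair_inj h
        rw [G.e_iff _ _ _ hE, F.sup, ← G.e_iff _ _ _ hE, ← G.e_iff _ _ _ hE]
        exact ⟨h1, h2⟩
    have hbot : q (G.e ⊥) ∈ K := hK ((hKK ⊥ _).2 ⟨_, er_mem G ⊥, rfl⟩)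
    obtain ⟨r0, hr0, hmax⟩ : ∃ r0, q (G.e r0) ∈ K ∧ ∀ r, q (G.e r) ∈ K → r ≤ r0 := by
      have hfin : ({r | q (G.e r) ∈ K} : Set L).Finite := Set.toFinite _
      obtain ⟨m, hm⟩ := hfin.exists_maximal ⟨⊥, hbot⟩
      refine ⟨m, hm.1, fun r hr => ?_⟩
      have := hm.2 (hsup m r hm.1 hr) le_sup_left
      exact le_trans le_sup_right this
    refine ⟨r0, le_antisymm ?_ ?_⟩
    · intro z hz
      obtain ⟨f, ⟨hf, k, hk⟩, e⟩ := (hKK r0 z).1 hz
      rw [← e]
      refine mem_K_of_mod P (KK ⊥) K (hKK ⊥) hK hf (G.e_mem r0) hr0 k ?_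
      intro x hx y hy hE h
      exact hk x hx y hy ((G.e_iff _ _ _ hE).1 h)
    · intro z hz
      obtain ⟨f, hf, e⟩ := P.surj z
      obtain ⟨k, r, hr⟩ := G.can f hf
      have hrK : q (G.e r) ∈ K := by
        refine mem_K_of_mod P (KK ⊥) K (hKK ⊥) hK (G.e_mem r) hf (by rw [e]; exact hz) k ?_
        intro x hx y hy hE h
        exact (G.e_iff _ _ _ hE).2 ((hr x hx y hy hE).1 h)
      have hle := hmax r hrK
      refine (hKK r0 z).2 ⟨f, ⟨hf, k, fun x hx y hy hE => ?_⟩, e⟩
      exact (hr x hx y hy (e_bot F hE)).2 (e_mono F hle hE)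
  refine ⟨KK ⊥, ⟨?_⟩⟩
  let φ : L ↪o {K : Language.ring.ElementarySubstructure N // KK ⊥ ≤ K} :=
    OrderEmbedding.ofMapLEIff (fun r => ⟨KK r, kmono ⊥ r bot_le⟩)
      (fun r s => ⟨fun h => kref r s h, fun h => kmono r s h⟩)
  exact (RelIso.ofSurjective φ (fun ⟨K, hK⟩ => by
    obtain ⟨r, hr⟩ := ksurj K hK
    exact ⟨r, Subtype.ext hr⟩)).symm

end Pool.Agent.Helper76_PA
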